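import Mathlib
import Pool.Graph.R_seed8.Y876.FF.Tr
import Pool.Agent.H529.Q.QDefs

/-! `DHL[44,2]` for linear forms with the right order of magnitude in the form used by
`Pool.Agent.Y876.FF.exact_forms`. -/

set_option autoImplicit false

open Finset Filter

namespace Pool.Agent.H529.R

open Pool.Agent.H95R2.BG.LF
open Pool.Agent.Y876.FF (LH)

theorem lh44 (H : Pool.Agent.H529.Q.Dhl44R) : LH 1 44 45 := by
  classical
  obtain ⟨κ, _, H⟩ := H
  intro a b ha hne hloc
  obtain ⟨c, hc, hX⟩ := H a b ⟨ha, hne, hloc⟩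
  filter_upwards [hX, eventually_ge_atTop (3 : ℝ),
    Real.tendsto_log_atTop.eventually (eventually_ge_atTop (1 / c))] with X hX hX0 hlog
  have hl : 0 < Real.log X := Real.log_pos (by linarith)
  have h1 : X / Real.log X ^ 45 ≤ c * X / Real.log X ^ 44 := by
    rw [div_le_div_iff₀ (pow_pos hl 45) (pow_pos hl 44), pow_succ (Real.log X) 44]
    have h2 : 1 ≤ c * Real.log X := by
      rw [div_le_iff₀ hc] at hlog
      linarith
    have h3 : 0 ≤ X * Real.log X ^ 44 := by positivity
    nlinarith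
  refine h1.trans (hX.trans (Nat.cast_le.2 ?_))
  unfold Pool.Agent.X34.E.goodR
  rw [← Set.ncard_coe_finset]
  apply Set.ncard_le_ncard
  · intro n hn
    obtain ⟨h1, _, _, i, j, hij, hi, hj⟩ := mem_filter.1 (mem_coe.1 hn)
    rw [mem_Icc] at h1
    refine ⟨h1.1, (Nat.le_floor_iff (by linarith)).1 h1.2, ?_⟩
    have h2 : ({i, j} : Set (Fin 44)) ⊆ {i : Fin 44 | (a i * n + b i).Prime} := by
      rintro t ht
      rcases ht with rfl | ht
      · exact hi
      · rw [Set.mem_singleton_iff] at ht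
        rw [ht]; exact hj
    calc 1 + 1 = ({i, j} : Set (Fin 44)).ncard := (Set.ncard_pair hij).symm
      _ ≤ _ := Set.ncard_le_ncard h2 (Set.toFinite _)
  · apply (Set.finite_Iic ⌊3 * X⌋₊).subset
    rintro n ⟨_, h3, _⟩
    exact Nat.le_floor h3

end Pool.Agent.H529.R
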