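import Mathlib

/-!
# Density from differences of large sets

If every set of more than `M` integers contains a difference in `D`, then at least `N / M - 1` of the integers
`1, ..., N` lie in `D`.
-/

set_option autoImplicit false

open Finset

namespace Pool.Agent.H529.R.Dens

theorem greedy (D : ℤ → Prop) (N : ℕ) : ∃ A : Finset ℤ, (∀ a ∈ A, a ≤ (N : ℤ)) ∧
    (∀ a ∈ A, ∀ b ∈ A, a < b → ¬ D (b - a)) ∧
    ∀ n : ℤ, 1 ≤ n → n ≤ (N : ℤ) → n ∈ A ∨ ∃ a ∈ A, 1 ≤ a ∧ a < n ∧ D (n - a) := by
  classical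
  suffices H : ∃ A : Finset ℤ, (∀ a ∈ A, 1 ≤ a ∧ a ≤ (N : ℤ)) ∧
      (∀ a ∈ A, ∀ b ∈ A, a < b → ¬ D (b - a)) ∧
      ∀ n : ℤ, 1 ≤ n → n ≤ (N : ℤ) → n ∈ A ∨ ∃ a ∈ A, 1 ≤ a ∧ a < n ∧ D (n - a) by
    obtain ⟨A, h1, h2, h3⟩ := H
    exact ⟨A, fun a ha => (h1 a ha).2, h2, h3⟩
  induction N with
  | zero =>
    refine ⟨∅, by simp, by simp, fun n h1 h2 => ?_⟩
    simp only [Nat.cast_zero] at h2
    omega
  | succ N ih =>
    obtain ⟨A, h1, h2, h3⟩ := ih
    by_cases h : ∃ a ∈ A, D (((N + 1 : ℕ) : ℤ) - a)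
    · refine ⟨A, fun a ha => ⟨(h1 a ha).1, ?_⟩, h2, fun n hn1 hn2 => ?_⟩
      · have := (h1 a ha).2
        push_cast
        omega
      · push_cast at hn2
        rcases (show n ≤ (N : ℤ) ∨ n = (N : ℤ) + 1 by omega) with h4 | h4
        · exact h3 n hn1 h4
        · right
          obtain ⟨a, ha, hD⟩ := h
          refine ⟨a, ha, (h1 a ha).1, ?_, ?_⟩
          · have := (h1 a ha).2
            omega
          · rw [h4]
            push_cast at hD
            exact hD
    · push Not at h
      refine ⟨insert ((N : ℤ) + 1) A, ?_, ?_, ?_⟩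
      · intro a ha
        rw [mem_insert] at ha
        push_cast
        rcases ha with rfl | ha
        · exact ⟨by omega, le_rfl⟩
        · have := h1 a ha
          exact ⟨this.1, by omega⟩
      · intro a ha b hb hab
        rw [mem_insert] at ha hb
        rcases hb with rfl | hb
        · rcases ha with rfl | ha
          · exact absurd hab (lt_irrefl _)
          · have := h a ha
            push_cast at this
            exact this
        · rcases ha with rfl | ha
          · have := (h1 b hb).2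
            omega
          · exact h2 a ha b hb hab
      · intro n hn1 hn2
        push_cast at hn2
        rcases (show n ≤ (N : ℤ) ∨ n = (N : ℤ) + 1 by omega) with h4 | h4
        · rcases h3 n hn1 h4 with h5 | ⟨a, ha, h5⟩
          · exact Or.inl (mem_insert_of_mem h5)
          · exact Or.inr ⟨a, mem_insert_of_mem ha, h5⟩
        · left
          rw [h4]
          exact mem_insert_self _ _

/-- If every set of more than `M` integers contains a difference in `D`, then at least `N / M - 1` of the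
integers `1, ..., N` lie in `D`. -/
theorem density (D : ℤ → Prop) (M : ℕ)
    (h : ∀ S : Finset ℤ, M + 1 ≤ S.card → ∃ a ∈ S, ∃ b ∈ S, a < b ∧ D (b - a)) (N : ℕ) :
    (N : ℝ) ≤ M * (({d : ℕ | 1 ≤ d ∧ d ≤ N ∧ D d}.ncard : ℝ) + 1) := by
  classical
  obtain ⟨A, -, h2, h3⟩ := greedy D N
  have hA : A.card ≤ M := by
    by_contra hcon
    push Not at hcon
    obtain ⟨a, ha, b, hb, hab, hD⟩ := h A hcon
    exact h2 a ha b hb hab hD
  set E : Finset ℕ := (Icc 1 N).filter fun d => D (d : ℤ) with hE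
  have hEc : ({d : ℕ | 1 ≤ d ∧ d ≤ N ∧ D d}.ncard : ℝ) = E.card := by
    rw [← Set.ncard_coe_finset]
    congr 2
    ext d
    simp [hE, and_assoc]
  have hsub : Icc (1 : ℤ) N ⊆ A.biUnion fun a => insert a (E.image fun d : ℕ => a + (d : ℤ)) := by
    intro n hn
    rw [mem_Icc] at hn
    rw [mem_biUnion]
    rcases h3 n hn.1 hn.2 with h5 | ⟨a, ha, ha1, h5, h6⟩
    · exact ⟨n, h5, mem_insert_self _ _⟩
    · refine ⟨a, ha, mem_insert_of_mem (mem_image.2 ⟨(n - a).toNat, ?_, ?_⟩)⟩
      · have h7 : (((n - a).toNat : ℕ) : ℤ) = n - a := Int.toNat_of_nonneg (by omega)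
        rw [hE, mem_filter, mem_Icc, h7]
        refine ⟨⟨?_, ?_⟩, h6⟩ <;> omega
      · rw [Int.toNat_of_nonneg (by omega)]
        ring
  have hcard : N ≤ M * (E.card + 1) := by
    calc N = (Icc (1 : ℤ) N).card := by simp
      _ ≤ (A.biUnion fun a => insert a (E.image fun d : ℕ => a + (d : ℤ))).card := card_le_card hsub
      _ ≤ ∑ a ∈ A, (insert a (E.image fun d : ℕ => a + (d : ℤ))).card := card_biUnion_le
      _ ≤ ∑ _a ∈ A, (E.card + 1) := by
          refine sum_le_sum fun a _ => (card_insert_le _ _).trans ?_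
          exact Nat.succ_le_succ card_image_le
      _ = A.card * (E.card + 1) := by rw [sum_const, smul_eq_mul]
      _ ≤ M * (E.card + 1) := Nat.mul_le_mul_right _ hA
  rw [hEc]
  exact_mod_cast hcard

end Pool.Agent.H529.R.Dens
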