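import Mathlib
import Pool.Agent.H529.G.Final
import Pool.Graph.R_seed8.H358R5.CLS
import Pool.Graph.R_seed8.H358R5.CONS

/-! `DHL[44,2]` as `LHyp 1 44`, `CHyp 1 44`. -/

set_option autoImplicit false

open Finset Filter

namespace Pool.Agent.H529.R

open Pool.Agent.H358R5

theorem lhyp2 : LHyp 1 44 := by
  classical
  intro A B hA hne hadm ε hε
  filter_upwards [Pool.Agent.H529.G.dhl44L A B ⟨hA, hne, hadm⟩ ε hε] with X hX
  refine hX.trans (Nat.cast_le.2 (card_le_card ?_))
  intro n hn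
  unfold Pool.Agent.H95R2.BG.LF.goodL at hn
  obtain ⟨h1, i, j, hij, hi, hj⟩ := mem_filter.1 hn
  refine mem_filter.2 ⟨h1, ?_⟩
  have h2 : ({i, j} : Finset (Fin 44)) ⊆ univ.filter fun i => (A i * n + B i).Prime := by
    intro t ht
    rcases mem_insert.1 ht with rfl | ht
    · exact mem_filter.2 ⟨mem_univ _, hi⟩
    · rw [mem_singleton] at ht
      rw [ht]; exact mem_filter.2 ⟨mem_univ _, hj⟩
  calc 1 + 1 = ({i, j} : Finset (Fin 44)).card := (card_pair hij).symm
    _ ≤ _ := card_le_card h2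

theorem chyp2 : CHyp 1 44 := CLS_proof 1 44 lhyp2

end Pool.Agent.H529.R
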