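import Mathlib
import Pool.Graph.R_seed8.Y876.FF.Tr

/-! Exactness and fixed sets of forms for counts `x ^ (1 - ε)` (adapted from `Y876/FF/Tr.lean`, where the
counts are `x / (log x) ^ C`). -/

set_option autoImplicit false

open Finset Filter

namespace Pool.Agent.H529.R.TE

universe u

open Pool.Agent.TH779.Shat (tr mem_tr congruences)

/-- at least `m + 1` of any `K` admissible linear forms are simultaneously prime, `x ^ (1 - ε)` times -/
def LE' (m K : ℕ) : Prop := ∀ (a b : Fin K → ℕ), (∀ i, 1 ≤ a i) →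
    (∀ i j, i ≠ j → a i * b j ≠ a j * b i) →
    (∀ p : ℕ, p.Prime → ∃ n : ℕ, ∀ i, ¬ p ∣ a i * n + b i) → ∀ ε : ℝ, 0 < ε →
    ∀ᶠ X : ℝ in atTop, X ^ (1 - ε) ≤ (Set.ncard {n : ℕ | 1 ≤ n ∧ (n : ℝ) ≤ X ∧
      m + 1 ≤ Set.ncard {i : Fin K | (a i * n + b i).Prime}} : ℝ)

theorem shift_pow {N W ν : ℝ} (hN : 0 < N) (hW : 1 ≤ W) (hν : 0 ≤ ν) {ε : ℝ} (hε : 0 < ε) (hε1 : ε ≤ 1) :
    ∀ᶠ x : ℝ in atTop, N * x ^ (1 - ε) ≤ ((x - ν) / W) ^ (1 - ε / 2) := by
  filter_upwards [(tendsto_rpow_atTop (half_pos hε)).eventually_ge_atTop (N * (2 * W) ^ (1 - ε / 2)),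
    eventually_ge_atTop (1 : ℝ), eventually_ge_atTop (2 * ν)] with x h1 h2 h3
  have hx : 0 < x := by linarith
  have hW0 : 0 < W := by linarith
  have h4 : x / (2 * W) ≤ (x - ν) / W := by
    rw [div_le_div_iff₀ (by positivity) hW0]
    nlinarith
  have h5 : (x / (2 * W)) ^ (1 - ε / 2) ≤ ((x - ν) / W) ^ (1 - ε / 2) :=
    Real.rpow_le_rpow (by positivity) h4 (by linarith)
  refine le_trans ?_ h5
  rw [Real.div_rpow hx.le (by positivity), le_div_iff₀ (by positivity)]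
  have h6 : x ^ (1 - ε / 2) = x ^ (1 - ε) * x ^ (ε / 2) := by
    rw [← Real.rpow_add hx]
    ring_nf
  rw [h6]
  have h7 : 0 ≤ x ^ (1 - ε) := by positivity
  calc N * x ^ (1 - ε) * (2 * W) ^ (1 - ε / 2) = x ^ (1 - ε) * (N * (2 * W) ^ (1 - ε / 2)) := by ring
    _ ≤ x ^ (1 - ε) * x ^ (ε / 2) := mul_le_mul_of_nonneg_left h1 h7

theorem trace_nat {m K : ℕ} (hyp : LE' m K) {ι : Type u} [Fintype ι] [DecidableEq ι] (a b : ι → ℕ)
    (ha : ∀ i, 1 ≤ a i) (hne : ∀ i j, i ≠ j → a i * b j ≠ a j * b i) (S' : Finset ι) (hS' : K ≤ S'.card)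
    (hloc' : ∀ p : ℕ, p.Prime → ∃ n : ℕ, ∀ i ∈ S', ¬ p ∣ a i * n + b i) {ε : ℝ} (hε : 0 < ε) (hε1 : ε ≤ 1) :
    ∀ᶠ x : ℝ in atTop, ∃ T : Finset ι, T ⊆ S' ∧ m + 1 ≤ T.card ∧
      x ^ (1 - ε) ≤ (Set.ncard {n : ℕ | (n : ℝ) ≤ x ∧ tr a b n = T} : ℝ) := by
  classical
  obtain ⟨S, hSS, hSK⟩ := exists_subset_card_eq hS'
  have hloc : ∀ p : ℕ, p.Prime → ∃ n : ℕ, ∀ i ∈ S, ¬ p ∣ a i * n + b i :=
    fun p hp => (hloc' p hp).imp fun n hn i hi => hn i (hSS hi)
  obtain ⟨W, ν₀, hW, h1, h2⟩ := congruences a b ha hne S (univ \ S) sdiff_disjoint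
  set ν := ν₀ + W with hν
  have h1' : ∀ i ∉ S, ∃ p : ℕ, p.Prime ∧ p ∣ W ∧ p ∣ a i * ν + b i := by
    intro i hi
    obtain ⟨p, hp, hpW, hp2⟩ := h1 i (mem_sdiff.2 ⟨mem_univ _, hi⟩)
    refine ⟨p, hp, hpW, ?_⟩
    rw [hν, mul_add, add_right_comm]
    exact dvd_add hp2 (hpW.mul_left _)
  have h2' : ∀ p : ℕ, p.Prime → p ∣ W → ∀ j ∈ S, ¬ p ∣ a j * ν + b j := by
    intro p hp hpW j hj hd
    apply h2 p hp hpW j hj
    rw [hν, mul_add, add_right_comm] at hd
    exact (Nat.dvd_add_left (hpW.mul_left (a j))).1 hd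
  -- the new forms
  set e : Fin K ≃ S := (S.equivFinOfCardEq hSK).symm with he
  set A : Fin K → ℕ := fun i => a (e i) * W with hA
  set B : Fin K → ℕ := fun i => a (e i) * ν + b (e i) with hB
  have hval : ∀ (i : Fin K) (t : ℕ), A i * t + B i = a (e i) * (W * t + ν) + b (e i) := by
    intro i t
    simp only [hA, hB]
    ring
  have hf := hyp A B (fun i => Nat.mul_pos (ha _) hW)
    (by
      intro i j hij h
      have hne' : ((e i : S) : ι) ≠ e j := fun h' => hij (e.injective (Subtype.ext h'))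
      apply hne _ _ hne'
      simp only [hA, hB] at h
      have h3 : W * (a (e i) * b (e j)) = W * (a (e j) * b (e i)) := by
        have h4 : a (e i) * W * (a (e j) * ν + b (e j)) =
          W * (a (e i) * b (e j)) + W * (a (e i) * a (e j) * ν) := by ring
        have h5 : a (e j) * W * (a (e i) * ν + b (e i)) =
          W * (a (e j) * b (e i)) + W * (a (e i) * a (e j) * ν) := by ring
        omega
      exact Nat.eq_of_mul_eq_mul_left hW h3)
    (by
      intro p hp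
      by_cases hpW : p ∣ W
      · refine ⟨0, fun i => ?_⟩
        rw [hval]
        simp only [mul_zero, zero_add]
        exact h2' p hp hpW _ (e i).2
      · obtain ⟨n, hn⟩ := hloc p hp
        have : Fact p.Prime := ⟨hp⟩
        have hWZ : (W : ZMod p) ≠ 0 := fun h => hpW ((ZMod.natCast_eq_zero_iff _ _).1 h)
        refine ⟨(((n : ZMod p) - ν) / (W : ZMod p)).val, fun i hd => ?_⟩
        rw [hval] at hd
        apply hn (e i) (e i).2
        rw [← ZMod.natCast_eq_zero_iff] at hd ⊢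
        push_cast at hd ⊢
        rw [ZMod.natCast_zmod_val] at hd
        rw [← hd]
        field_simp
        ring) (ε / 2) (by linarith)
  -- the change of variables
  have hWr : (1 : ℝ) ≤ W := by exact_mod_cast hW
  obtain ⟨N, hN⟩ : ∃ N : ℝ, N = (Fintype.card (Finset ι) : ℝ) := ⟨_, rfl⟩
  have hNpos : 0 < N := by
    rw [hN]
    have : 0 < Fintype.card (Finset ι) := Fintype.card_pos
    exact_mod_cast this
  have ht : Tendsto (fun x : ℝ => (x - ν) / (W : ℝ)) atTop atTop :=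
    (tendsto_atTop_add_const_right _ _ tendsto_id).atTop_div_const (by positivity)
  filter_upwards [ht.eventually hf, shift_pow hNpos hWr (Nat.cast_nonneg ν) hε hε1,
    eventually_ge_atTop (2 : ℝ)] with x hx hxs hx2
  have hx0 : 0 < x := by linarith
  -- pigeonhole
  set G : Set ℕ := {t : ℕ | 1 ≤ t ∧ (t : ℝ) ≤ (x - ν) / W ∧
      m + 1 ≤ Set.ncard {i : Fin K | (A i * t + B i).Prime}} with hG
  have hGfin : G.Finite := by
    apply (Set.finite_Iic ⌊(x - ν) / W⌋₊).subset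
    intro t ht
    exact Nat.le_floor ht.2.1
  have hval' : ∀ t ∈ G, tr a b (W * t + ν) ⊆ S ∧ m + 1 ≤ (tr a b (W * t + ν)).card ∧
      ((W * t + ν : ℕ) : ℝ) ≤ x := by
    intro t ht
    obtain ⟨ht1, ht2, ht3⟩ := ht
    have hsub : tr a b (W * t + ν) ⊆ S := by
      intro i hi
      by_contra hiS
      rw [mem_tr] at hi
      obtain ⟨p, hp, hpW, hpd⟩ := h1' i hiS
      have h3 : p ∣ a i * (W * t + ν) + b i := by
        have : a i * (W * t + ν) + b i = W * (a i * t) + (a i * ν + b i) := by ring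
        rw [this]
        exact dvd_add (hpW.mul_right _) hpd
      have h4 : p = a i * (W * t + ν) + b i := (Nat.prime_dvd_prime_iff_eq hp hi).1 h3
      have h5 : p ≤ W := Nat.le_of_dvd hW hpW
      have h6 : W + W ≤ W * t + ν := by
        have : W * 1 ≤ W * t := Nat.mul_le_mul_left _ ht1
        omega
      have h7 : 1 * (W * t + ν) ≤ a i * (W * t + ν) := Nat.mul_le_mul_right _ (ha i)
      omega
    refine ⟨hsub, ?_, ?_⟩
    · refine ht3.trans ?_
      rw [← Set.ncard_coe_finset (tr a b (W * t + ν))]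
      apply Set.ncard_le_ncard_of_injOn (fun i : Fin K => ((e i : S) : ι))
      · intro i hi
        have hi' : (A i * t + B i).Prime := hi
        rw [hval] at hi'
        exact (mem_tr a b _ _).2 hi'
      · intro i _ j _ hij
        exact e.injective (Subtype.ext hij)
    · rw [le_div_iff₀ (by positivity)] at ht2
      push_cast
      linarith
  set Gf : Finset ℕ := hGfin.toFinset with hGf
  have hGcard : N * x ^ (1 - ε) ≤ (Gf.card : ℝ) := by
    rw [hGf, ← Set.ncard_eq_toFinset_card G hGfin]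
    exact hxs.trans hx
  obtain ⟨T, hT, hT2⟩ : ∃ T ∈ (univ : Finset (Finset ι)), (Gf.card : ℝ) / N ≤
      ((Gf.filter (fun t => tr a b (W * t + ν) = T)).card : ℝ) := by
    by_contra hcon
    push Not at hcon
    have h3 : (Gf.card : ℝ) = ∑ T ∈ (univ : Finset (Finset ι)),
        ((Gf.filter (fun t => tr a b (W * t + ν) = T)).card : ℝ) := by
      rw [← Nat.cast_sum]
      congr 1
      exact card_eq_sum_card_fiberwise (fun t _ => mem_univ _)
    have h4 : ∑ T ∈ (univ : Finset (Finset ι)),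
        ((Gf.filter (fun t => tr a b (W * t + ν) = T)).card : ℝ) <
        ∑ T ∈ (univ : Finset (Finset ι)), (Gf.card : ℝ) / N :=
      sum_lt_sum_of_nonempty univ_nonempty hcon
    rw [sum_const, card_univ, nsmul_eq_mul, ← hN, mul_div_cancel₀ _ hNpos.ne'] at h4
    linarith
  have hT3 : x ^ (1 - ε) ≤ ((Gf.filter (fun t => tr a b (W * t + ν) = T)).card : ℝ) := by
    refine le_trans ?_ hT2
    rw [le_div_iff₀ hNpos]
    refine le_trans (le_of_eq (mul_comm _ _)) hGcard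
  -- T is the trace of some element
  have hne2 : (Gf.filter (fun t => tr a b (W * t + ν) = T)).Nonempty := by
    rw [← card_pos]
    have h3 : (0 : ℝ) < x ^ (1 - ε) := by positivity
    exact_mod_cast h3.trans_le hT3
  obtain ⟨t, ht⟩ := hne2
  obtain ⟨ht1, ht2⟩ := mem_filter.1 ht
  have ht3 : t ∈ G := by
    rw [hGf, Set.Finite.mem_toFinset] at ht1
    exact ht1
  obtain ⟨h3, h4, -⟩ := hval' t ht3
  refine ⟨T, (ht2 ▸ h3).trans hSS, ht2 ▸ h4, hT3.trans ?_⟩
  have hfin2 : {n : ℕ | (n : ℝ) ≤ x ∧ tr a b n = T}.Finite := by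
    apply (Set.finite_Iic ⌊x⌋₊).subset
    intro n hn
    exact Nat.le_floor hn.1
  have hfinal : (Gf.filter (fun t => tr a b (W * t + ν) = T)).card ≤
      Set.ncard {n : ℕ | (n : ℝ) ≤ x ∧ tr a b n = T} := by
    rw [← Set.ncard_coe_finset]
    refine Set.ncard_le_ncard_of_injOn (fun t => W * t + ν) ?_ ?_ hfin2
    · intro t ht
      obtain ⟨ht1, ht2⟩ := mem_filter.1 (mem_coe.1 ht)
      have ht3 : t ∈ G := by
        rw [hGf, Set.Finite.mem_toFinset] at ht1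
        exact ht1
      obtain ⟨-, -, h6⟩ := hval' t ht3
      exact ⟨h6, ht2⟩
    · intro t _ t' _ h
      have h5 : W * t = W * t' := by
        have : W * t + ν = W * t' + ν := h
        omega
      exact Nat.eq_of_mul_eq_mul_left hW h5
  exact_mod_cast hfinal

theorem trace_int {m K : ℕ} (hyp : LE' m K) {ι : Type u} [Fintype ι] (a b : ι → ℤ)
    (ha : ∀ i, 0 < a i) (hne : ∀ i j, i ≠ j → a i * b j ≠ a j * b i) (S : Finset ι) (hS : K ≤ S.card)
    (hloc : ∀ p : ℕ, p.Prime → ∃ n : ℕ, ∀ i ∈ S, ¬ (p : ℤ) ∣ a i * n + b i) {ε : ℝ} (hε : 0 < ε) (hε1 : ε ≤ 1) :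
    ∀ᶠ x : ℝ in atTop, ∃ T : Finset ι, T ⊆ S ∧ m + 1 ≤ T.card ∧
      x ^ (1 - ε) ≤ (Set.ncard {n : ℕ | (n : ℝ) ≤ x ∧
        ∀ i, (a i * (n : ℤ) + b i).natAbs.Prime ↔ i ∈ T} : ℝ) := by
  classical
  obtain ⟨s, hs⟩ : ∃ s : ℕ, s = ∑ i, (b i).natAbs := ⟨_, rfl⟩
  set A : ι → ℕ := fun i => (a i).toNat with hA
  set B : ι → ℕ := fun i => (a i * s + b i).toNat with hB
  have hAi : ∀ i, ((A i : ℕ) : ℤ) = a i := fun i => Int.toNat_of_nonneg (ha i).le
  have hBi : ∀ i, ((B i : ℕ) : ℤ) = a i * s + b i := by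
    intro i
    apply Int.toNat_of_nonneg
    have h1 : (b i).natAbs ≤ s := by
      rw [hs]
      exact single_le_sum (f := fun i => (b i).natAbs) (fun _ _ => Nat.zero_le _) (mem_univ i)
    have h2 : -(s : ℤ) ≤ b i := by omega
    have h3 : (s : ℤ) ≤ a i * s := by
      have := ha i
      nlinarith [Int.natCast_nonneg s]
    linarith
  have hval : ∀ (i : ι) (t : ℕ), (a i * ((t + s : ℕ) : ℤ) + b i).natAbs = A i * t + B i := by
    intro i t
    have h1 : (a i * ((t + s : ℕ) : ℤ) + b i) = ((A i * t + B i : ℕ) : ℤ) := by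
      push_cast
      rw [hAi, hBi]
      ring
    rw [h1, Int.natAbs_natCast]
  have h := trace_nat hyp A B (fun i => by
      have h1 := hAi i
      have h2 := ha i
      omega)
    (by
      intro i j hij h
      apply hne i j hij
      have h1 : ((A i * B j : ℕ) : ℤ) = ((A j * B i : ℕ) : ℤ) := by rw [h]
      push_cast at h1
      rw [hAi, hAi, hBi, hBi] at h1
      linarith) S hS
    (by
      intro p hp
      obtain ⟨n, hn⟩ := hloc p hp
      refine ⟨n + (p - 1) * s, fun i hi hd => hn i hi ?_⟩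
      have h1 : ((p : ℕ) : ℤ) ∣ ((A i * (n + (p - 1) * s) + B i : ℕ) : ℤ) :=
        Int.natCast_dvd_natCast.2 hd
      have h2 : ((A i * (n + (p - 1) * s) + B i : ℕ) : ℤ) = (a i * n + b i) + p * (a i * s) := by
        push_cast [Nat.cast_sub hp.one_lt.le]
        rw [hAi, hBi]
        ring
      rw [h2] at h1
      exact (Int.dvd_add_left (Dvd.intro _ rfl)).1 h1) (half_pos hε) (by linarith)
  have ht : Tendsto (fun x : ℝ => (x - s) / 1) atTop atTop :=
    (tendsto_atTop_add_const_right _ _ tendsto_id).atTop_div_const (by norm_num)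
  filter_upwards [ht.eventually h, shift_pow one_pos le_rfl (Nat.cast_nonneg s) hε hε1] with x hx hx2
  rw [div_one] at hx hx2
  rw [one_mul] at hx2
  obtain ⟨T, hT1, hT2, hT3⟩ := hx
  refine ⟨T, hT1, hT2, hx2.trans (hT3.trans ?_)⟩
  refine Nat.cast_le.2 ?_
  refine Set.ncard_le_ncard_of_injOn (fun t => t + s) ?_ ?_ ?_
  · rintro t ⟨ht1, ht2⟩
    refine ⟨?_, fun i => ?_⟩
    · push_cast
      linarith
    · rw [hval, ← ht2, mem_tr]
  · intro t _ t' _ htt
    exact Nat.add_right_cancel htt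
  · apply (Set.finite_Iic ⌊x⌋₊).subset
    intro n hn
    exact Nat.le_floor hn.1

/-- `m + 1` simultaneously prime forms, with exactness, and a fixed set of forms -/
theorem exact_forms {m K : ℕ} (hyp : LE' m K) {ι : Type u} [Fintype ι] (a b : ι → ℤ)
    (ha : ∀ i, 0 < a i) (hne : ∀ i j, i ≠ j → a i * b j ≠ a j * b i) (S : Finset ι) (hS : K ≤ S.card)
    (hloc : ∀ p : ℕ, p.Prime → ∃ n : ℕ, ∀ i ∈ S, ¬ (p : ℤ) ∣ a i * n + b i) :
    (∀ ε : ℝ, 0 < ε → ∀ᶠ x : ℝ in atTop, x ^ (1 - ε) ≤ (Set.ncard {n : ℕ | (n : ℝ) ≤ x ∧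
      m + 1 ≤ Set.ncard {i : ι | i ∈ S ∧ (a i * (n : ℤ) + b i).natAbs.Prime} ∧
      ∀ i ∉ S, ¬ (a i * (n : ℤ) + b i).natAbs.Prime} : ℝ)) ∧
    ∃ T : Finset ι, T ⊆ S ∧ m + 1 ≤ T.card ∧ ∀ ε : ℝ, 0 < ε → ∃ᶠ x : ℝ in atTop,
      x ^ (1 - ε) ≤ (Set.ncard {n : ℕ | (n : ℝ) ≤ x ∧
        ∀ i, (a i * (n : ℤ) + b i).natAbs.Prime ↔ i ∈ T} : ℝ) := by
  classical
  have key : ∀ ε : ℝ, 0 < ε → ∀ᶠ x : ℝ in atTop, ∃ T : Finset ι, T ⊆ S ∧ m + 1 ≤ T.card ∧
      x ^ (1 - ε) ≤ (Set.ncard {n : ℕ | (n : ℝ) ≤ x ∧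
        ∀ i, (a i * (n : ℤ) + b i).natAbs.Prime ↔ i ∈ T} : ℝ) := by
    intro ε hε
    filter_upwards [trace_int hyp a b ha hne S hS hloc (ε := min ε 1) (lt_min hε one_pos) (min_le_right _ _),
      eventually_ge_atTop (1 : ℝ)] with x hx hx1
    obtain ⟨T, h1, h2, h3⟩ := hx
    refine ⟨T, h1, h2, le_trans ?_ h3⟩
    exact Real.rpow_le_rpow_of_exponent_le hx1 (by linarith [min_le_left ε 1])
  constructor
  · intro ε hε
    filter_upwards [key ε hε] with x hx
    obtain ⟨T, hTS, hTm, hT⟩ := hx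
    refine hT.trans ?_
    refine Nat.cast_le.2 ?_
    apply Set.ncard_le_ncard
    · rintro n ⟨hn1, hn2⟩
      refine ⟨hn1, ?_, fun i hi hp => hi (hTS ((hn2 i).1 hp))⟩
      rw [← Set.ncard_coe_finset] at hTm
      refine hTm.trans (Set.ncard_le_ncard ?_ (Set.toFinite _))
      intro i hi
      exact ⟨hTS (mem_coe.1 hi), (hn2 i).2 (mem_coe.1 hi)⟩
    · apply (Set.finite_Iic ⌊x⌋₊).subset
      intro n hn
      exact Nat.le_floor hn.1
  · by_contra hcon
    push Not at hcon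
    have h1 : ∀ T : Finset ι, ∃ ε : ℝ, 0 < ε ∧ (T ⊆ S → m + 1 ≤ T.card → ∀ᶠ x : ℝ in atTop,
        (Set.ncard {n : ℕ | (n : ℝ) ≤ x ∧
          ∀ i, (a i * (n : ℤ) + b i).natAbs.Prime ↔ i ∈ T} : ℝ) < x ^ (1 - ε)) := by
      intro T
      by_cases h : T ⊆ S ∧ m + 1 ≤ T.card
      · obtain ⟨ε, hε, h2⟩ := hcon T h.1 h.2
        refine ⟨ε, hε, fun _ _ => ?_⟩
        filter_upwards [h2] with x hx using hx
      · exact ⟨1, one_pos, fun h2 h3 => absurd ⟨h2, h3⟩ h⟩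
    choose e he0 he using h1
    obtain ⟨T0, -, hmin⟩ := exists_min_image (univ : Finset (Finset ι)) e ⟨∅, mem_univ _⟩
    have hall : ∀ᶠ x : ℝ in atTop, ∀ T : Finset ι, T ⊆ S → m + 1 ≤ T.card →
        (Set.ncard {n : ℕ | (n : ℝ) ≤ x ∧
          ∀ i, (a i * (n : ℤ) + b i).natAbs.Prime ↔ i ∈ T} : ℝ) < x ^ (1 - e T) := by
      rw [Filter.eventually_all]
      intro T
      by_cases h : T ⊆ S ∧ m + 1 ≤ T.card
      · filter_upwards [he T h.1 h.2] with x hx _ _ using hx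
      · exact Filter.Eventually.of_forall fun x h2 h3 => absurd ⟨h2, h3⟩ h
    obtain ⟨x, hx1, hx2, hx3⟩ := ((key (e T0) (he0 T0)).and (hall.and (eventually_ge_atTop (1 : ℝ)))).exists
    obtain ⟨T, hT1, hT2, hT3⟩ := hx1
    have h2 := hx2 T hT1 hT2
    have h3 : x ^ (1 - e T) ≤ x ^ (1 - e T0) :=
      Real.rpow_le_rpow_of_exponent_le hx3 (by linarith [hmin T (mem_univ _)])
    linarith

end Pool.Agent.H529.R.TE
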