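import Mathlib
import Pool.Agent.H529.R.TE

/-! Exact patterns of primes inside admissible sets, for counts `x ^ (1 - ε)`. -/

set_option autoImplicit false

open Finset Filter

namespace Pool.Agent.H529.R.Pat

open Pool.Agent.TH779.Shat (tr mem_tr)
open Pool.Agent.H529.R.TE

/-- the numbers `n ≤ x` in whose `R`-neighbourhood exactly the `n + y`, `y ∈ P`, are primes -/
def Ex (P : Finset ℤ) (R : ℕ) (x : ℝ) : Set ℕ :=
  {n : ℕ | (n : ℝ) ≤ x ∧ ∀ y : ℤ, |y| ≤ R → ((∃ p : ℕ, p.Prime ∧ (p : ℤ) = n + y) ↔ y ∈ P)}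

theorem Ex_finite (P : Finset ℤ) (R : ℕ) (x : ℝ) : (Ex P R x).Finite := by
  apply (Set.finite_Iic ⌊x⌋₊).subset
  intro n hn
  exact Nat.le_floor hn.1

theorem Ex_mono (P : Finset ℤ) {R R' : ℕ} (h : R ≤ R') (x : ℝ) : Ex P R' x ⊆ Ex P R x :=
  fun _ hn => ⟨hn.1, fun y hy => hn.2 y (hy.trans (by exact_mod_cast h))⟩

/-- one scale -/
theorem core {m K : ℕ} (hyp : LE' m K) (S : Finset ℤ) (hS : K ≤ S.card)
    (hadm : ∀ p : ℕ, p.Prime → ∃ r : ℤ, ∀ s ∈ S, ¬ (p : ℤ) ∣ r + s) (R : ℕ) (hR : ∀ s ∈ S, |s| ≤ R)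
    {ε : ℝ} (hε : 0 < ε) (hε1 : ε ≤ 1) :
    ∀ᶠ x : ℝ in atTop, ∃ P : Finset ℤ, P ⊆ S ∧ m + 1 ≤ P.card ∧ x ^ (1 - ε) ≤ ((Ex P R x).ncard : ℝ) := by
  classical
  set I : Finset ℤ := Icc (-(R : ℤ)) R with hI
  set b : I → ℕ := fun y => ((y : ℤ) + R).toNat with hb
  have hbv : ∀ y : I, ((b y : ℕ) : ℤ) = (y : ℤ) + R := by
    intro y
    have := (mem_Icc.1 y.2).1
    exact Int.toNat_of_nonneg (by linarith)
  set S' : Finset I := univ.filter (fun y : I => (y : ℤ) ∈ S) with hS'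
  have hmem : ∀ s ∈ S, s ∈ I := fun s hs => mem_Icc.2 (abs_le.1 (hR s hs))
  have hcard : S'.card = S.card := by
    have h1 : S'.image (fun y : I => (y : ℤ)) = S := by
      ext s
      simp only [hS', mem_image, mem_filter, mem_univ, true_and]
      constructor
      · rintro ⟨y, hy, rfl⟩
        exact hy
      · intro hs
        exact ⟨⟨s, hmem s hs⟩, hs, rfl⟩
    rw [← h1, card_image_of_injective _ Subtype.val_injective]
  have h := trace_nat hyp (fun _ : I => 1) b (fun _ => le_rfl)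
    (by
      intro i j hij h
      apply hij
      apply Subtype.ext
      simp only [one_mul] at h
      have h1 := hbv i
      have h2 := hbv j
      rw [← h] at h1
      linarith) S' (by rw [hcard]; exact hS)
    (by
      intro p hp
      obtain ⟨r, hr⟩ := hadm p hp
      have hp0 : (p : ℤ) ≠ 0 := by exact_mod_cast hp.ne_zero
      refine ⟨((r - R) % p).toNat, fun y hy hd => ?_⟩
      have hyS : (y : ℤ) ∈ S := (mem_filter.1 hy).2
      apply hr y hyS
      have h1 : ((p : ℕ) : ℤ) ∣ (((1 * ((r - R) % p).toNat + b y : ℕ)) : ℤ) := Int.natCast_dvd_natCast.2 hd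
      push_cast at h1
      rw [hbv, Int.toNat_of_nonneg (Int.emod_nonneg _ hp0)] at h1
      have h2 : (p : ℤ) ∣ (r - R) - (r - R) % p := Int.dvd_self_sub_emod
      have h3 : r + (y : ℤ) = (1 * ((r - R) % p) + ((y : ℤ) + R)) + ((r - R) - (r - R) % p) := by ring
      rw [h3]
      exact dvd_add h1 h2) (half_pos hε) (by linarith)
  have ht : Tendsto (fun x : ℝ => (x - R) / 1) atTop atTop :=
    (tendsto_atTop_add_const_right _ _ tendsto_id).atTop_div_const (by norm_num)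
  filter_upwards [ht.eventually h, shift_pow one_pos le_rfl (Nat.cast_nonneg R) hε hε1] with x hx hx2
  rw [div_one] at hx hx2
  rw [one_mul] at hx2
  obtain ⟨T, hT1, hT2, hT3⟩ := hx
  refine ⟨T.image (fun y : I => (y : ℤ)), ?_, ?_, hx2.trans (hT3.trans ?_)⟩
  · intro s hs
    obtain ⟨y, hy, rfl⟩ := mem_image.1 hs
    exact (mem_filter.1 (hT1 hy)).2
  · rw [card_image_of_injective _ Subtype.val_injective]
    exact hT2
  · refine Nat.cast_le.2 ?_
    refine Set.ncard_le_ncard_of_injOn (fun t => t + R) ?_ ?_ (Ex_finite _ _ _)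
    · rintro t ⟨ht1, ht2⟩
      refine ⟨by push_cast; linarith, fun y hy => ?_⟩
      have hyI : y ∈ I := mem_Icc.2 (abs_le.1 hy)
      have h1 : (∃ p : ℕ, p.Prime ∧ (p : ℤ) = ((t + R : ℕ) : ℤ) + y) ↔ (⟨y, hyI⟩ : I) ∈ T := by
        rw [← ht2, mem_tr]
        have h2 : (((1 * t + b ⟨y, hyI⟩ : ℕ)) : ℤ) = ((t + R : ℕ) : ℤ) + y := by
          push_cast
          rw [hbv]
          ring
        constructor
        · rintro ⟨p, hp, hpe⟩
          have h3 : p = 1 * t + b ⟨y, hyI⟩ := by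
            have : (p : ℤ) = ((1 * t + b ⟨y, hyI⟩ : ℕ) : ℤ) := by rw [h2, hpe]
            exact_mod_cast this
          rw [← h3]
          exact hp
        · intro hp
          exact ⟨_, hp, h2⟩
      rw [h1, mem_image]
      constructor
      · intro hy'
        exact ⟨_, hy', rfl⟩
      · rintro ⟨z, hz, hzy⟩
        have : z = ⟨y, hyI⟩ := Subtype.ext hzy
        rwa [this] at hz
    · intro t _ t' _ htt
      exact Nat.add_right_cancel htt

/-- one pattern for all `R` and `ε` -/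
theorem exact_pattern {m K : ℕ} (hyp : LE' m K) (S : Finset ℤ) (hS : K ≤ S.card)
    (hadm : ∀ p : ℕ, p.Prime → ∃ r : ℤ, ∀ s ∈ S, ¬ (p : ℤ) ∣ r + s) :
    ∃ P : Finset ℤ, P ⊆ S ∧ m + 1 ≤ P.card ∧ ∀ (R : ℕ) (ε : ℝ), 0 < ε → ∃ᶠ x : ℝ in atTop,
      x ^ (1 - ε) ≤ ((Ex P R x).ncard : ℝ) := by
  classical
  by_contra hcon
  push Not at hcon
  have h1 : ∀ P : Finset ℤ, ∃ (R : ℕ) (ε : ℝ), 0 < ε ∧ (P ⊆ S → m + 1 ≤ P.card →
      ∀ᶠ x : ℝ in atTop, ((Ex P R x).ncard : ℝ) < x ^ (1 - ε)) := by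
    intro P
    by_cases h : P ⊆ S ∧ m + 1 ≤ P.card
    · obtain ⟨R, ε, hε, h2⟩ := hcon P h.1 h.2
      refine ⟨R, ε, hε, fun _ _ => ?_⟩
      filter_upwards [h2] with x hx using hx
    · exact ⟨0, 1, one_pos, fun h2 h3 => absurd ⟨h2, h3⟩ h⟩
  choose Rf ef he hf using h1
  obtain ⟨P0, -, hmin⟩ := exists_min_image S.powerset ef ⟨∅, empty_mem_powerset _⟩
  set R : ℕ := S.sup (fun s => s.natAbs) + S.powerset.sup Rf with hR
  have hRS : ∀ s ∈ S, |s| ≤ (R : ℤ) := by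
    intro s hs
    rw [Int.abs_eq_natAbs]
    have := Finset.le_sup (f := fun s : ℤ => s.natAbs) hs
    have h2 : s.natAbs ≤ R := this.trans (Nat.le_add_right _ _)
    exact_mod_cast h2
  have hall : ∀ᶠ x : ℝ in atTop, ∀ P ∈ S.powerset, m + 1 ≤ P.card →
      ((Ex P (Rf P) x).ncard : ℝ) < x ^ (1 - ef P) := by
    rw [Filter.eventually_all_finset]
    intro P hP
    by_cases h : m + 1 ≤ P.card
    · filter_upwards [hf P (mem_powerset.1 hP) h] with x hx _ using hx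
    · exact Filter.Eventually.of_forall fun x h2 => absurd h2 h
  have hε0 : 0 < min (ef P0) 1 := lt_min (he P0) one_pos
  obtain ⟨x, hx1, hx2, hx3⟩ := ((core hyp S hS hadm R hRS hε0 (min_le_right _ _)).and
    (hall.and (eventually_ge_atTop (1 : ℝ)))).exists
  obtain ⟨P, hP1, hP2, hP3⟩ := hx1
  have h2 := hx2 P (mem_powerset.2 hP1) hP2
  have h3 : x ^ (1 - ef P) ≤ x ^ (1 - min (ef P0) 1) :=
    Real.rpow_le_rpow_of_exponent_le hx3
      (by linarith [hmin P (mem_powerset.2 hP1), min_le_left (ef P0) 1])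
  have h4 : (Ex P R x).ncard ≤ (Ex P (Rf P) x).ncard := by
    apply Set.ncard_le_ncard (Ex_mono P ?_ x) (Ex_finite _ _ _)
    have := Finset.le_sup (f := Rf) (mem_powerset.2 hP1)
    omega
  have h5 : ((Ex P R x).ncard : ℝ) ≤ ((Ex P (Rf P) x).ncard : ℝ) := by exact_mod_cast h4
  linarith

end Pool.Agent.H529.R.Pat
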