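import Mathlib
import Pool.Agent.H921.D44.SieveCounts44
import Pool.Graph.R_seed8.H358R5.Stubs2

/-! Primes in translates of sieve windows, from `m + 1` primes among `K` linear forms (generalised from
`H921/D44/SieveCounts44.lean`). -/

set_option autoImplicit false

open Finset Filter

namespace Pool.Agent.H529.R.Win

open Pool.Agent.H358R5 (LHyp)

theorem card_le_primeCounting {x k : ℕ} (Q : Finset ℕ) (hQ : ∀ q ∈ Q, q.Prime ∧ x < q ∧ q ≤ x + k) :
    Nat.primeCounting x + Q.card ≤ Nat.primeCounting (x + k) := by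
  unfold Nat.primeCounting Nat.primeCounting'
  rw [Nat.count_eq_card_filter_range, Nat.count_eq_card_filter_range]
  have hd : Disjoint ((range (x + 1)).filter Nat.Prime) Q := by
    rw [Finset.disjoint_left]
    intro a ha hb
    rw [Finset.mem_filter, Finset.mem_range] at ha
    have := hQ a hb
    omega
  rw [← Finset.card_union_of_disjoint hd]
  apply Finset.card_le_card
  intro a ha
  rw [Finset.mem_union, Finset.mem_filter, Finset.mem_range] at ha
  rw [Finset.mem_filter, Finset.mem_range]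
  rcases ha with ⟨h5, h6⟩ | h5
  · exact ⟨by omega, h6⟩
  · have h6 := hQ a h5
    exact ⟨by omega, h6.1⟩

open Classical in
/-- The data of a window with at least `K` unsieved integers. -/
theorem window {K : ℕ} (k j : ℕ)
    (hk : K ≤ ((Ioc j (j + k)).filter fun n => ∀ p : ℕ, p.Prime → p ≤ k → ¬ p ∣ n).card) :
    ∃ (P : ℕ) (e : Fin K → ℕ), 0 < P ∧ (∀ p : ℕ, p.Prime → p ≤ k → p ∣ P) ∧ Function.Injective e ∧
      (∀ i, j < e i ∧ e i ≤ j + k) ∧ Pool.Agent.H95R2.BG.LF.AdmissibleL (fun _ : Fin K => P) e := by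
  obtain ⟨T, hTs, hTc⟩ := Finset.exists_subset_card_eq hk
  set e : Fin K → ℕ := fun i => T.orderEmbOfFin hTc i with he
  have hemem : ∀ i, e i ∈ T := fun i => Finset.orderEmbOfFin_mem T hTc i
  have hinj : Function.Injective e := (T.orderEmbOfFin hTc).injective
  have hes : ∀ i, (j < e i ∧ e i ≤ j + k) ∧ ∀ p : ℕ, p.Prime → p ≤ k → ¬ p ∣ e i := by
    intro i
    have := Finset.mem_filter.1 (hTs (hemem i))
    exact ⟨Finset.mem_Ioc.1 this.1, this.2⟩
  set P : ℕ := primorial k with hPdef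
  have hP : 0 < P := primorial_pos k
  have hdvd : ∀ p : ℕ, p.Prime → p ≤ k → p ∣ P := by
    intro p hp hpk
    rw [hPdef]
    unfold primorial
    exact Finset.dvd_prod_of_mem _ (Finset.mem_filter.2 ⟨Finset.mem_range.2 (by omega), hp⟩)
  have hcop : ∀ p : ℕ, p.Prime → k < p → ¬ p ∣ P := by
    intro p hp hpk h
    rw [hPdef] at h
    unfold primorial at h
    obtain ⟨q, hq, hpq⟩ := (Prime.dvd_finsetProd_iff hp.prime _).1 h
    rw [Finset.mem_filter, Finset.mem_range] at hq
    rw [(Nat.prime_dvd_prime_iff_eq hp hq.2)] at hpq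
    omega
  refine ⟨P, e, hP, hdvd, hinj, fun i => (hes i).1, fun _ => hP, ?_, ?_⟩
  · intro i i' hii h
    exact hii (hinj (Nat.eq_of_mul_eq_mul_left hP h)).symm
  · intro p hp
    by_cases hpk : p ≤ k
    · exact ⟨0, fun i => by simpa using (hes i).2 p hp hpk⟩
    · have hpk' : k < p := by omega
      have hc : Nat.Coprime P p := ((Nat.Prime.coprime_iff_not_dvd hp).2 (hcop p hp hpk')).symm
      obtain ⟨a, ha⟩ : ∃ a : ℕ, p ∣ P * a + j := by
        have h1 : IsUnit (P : ZMod p) := (ZMod.isUnit_iff_coprime P p).2 hc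
        have : NeZero p := ⟨hp.ne_zero⟩
        obtain ⟨u, hu⟩ := h1
        refine ⟨((↑(u⁻¹) : ZMod p) * (-(j : ZMod p))).val, ?_⟩
        rw [← ZMod.natCast_eq_zero_iff]
        push_cast
        rw [ZMod.natCast_zmod_val, ← mul_assoc, ← hu, Units.mul_inv, one_mul, neg_add_cancel]
      refine ⟨a, fun i h => ?_⟩
      obtain ⟨⟨h1, h2⟩, _⟩ := hes i
      have h3 : P * a + e i = (P * a + j) + (e i - j) := by omega
      have h4 : p ∣ e i - j := (Nat.dvd_add_right ha).1 (h3 ▸ h)
      have := Nat.le_of_dvd (by omega) h4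
      omega

open Classical in
theorem sieveCounts {m K : ℕ} (H : LHyp m K) (k j : ℕ)
    (hk : K ≤ ((Ioc j (j + k)).filter fun n => ∀ p : ℕ, p.Prime → p ≤ k → ¬ p ∣ n).card) (ε : ℝ) (hε : 0 < ε) :
    ∀ᶠ X : ℝ in atTop, X ^ (1 - ε) ≤
      (Set.ncard {x : ℕ | (x : ℝ) ≤ X ∧ (∀ p : ℕ, p.Prime → p ≤ k → x ≡ j [MOD p]) ∧
        Nat.primeCounting x + (m + 1) ≤ Nat.primeCounting (x + k)} : ℝ) := by
  obtain ⟨P, e, hP, hdvd, hinj, hes, hadm⟩ := window k j hk
  have hmain := Pool.Agent.H921.D44.SieveCounts44.scale (j := j) hP hε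
    (fun ε' hε' => H (fun _ => P) e hadm.1 hadm.2.1 hadm.2.2 ε' hε')
  filter_upwards [hmain] with X hX
  refine hX.trans ?_
  have hfin : {x : ℕ | (x : ℝ) ≤ X ∧ (∀ p : ℕ, p.Prime → p ≤ k → x ≡ j [MOD p]) ∧
        Nat.primeCounting x + (m + 1) ≤ Nat.primeCounting (x + k)}.Finite :=
    (Set.finite_Iic ⌊X⌋₊).subset fun x hx => Nat.le_floor hx.1
  have hP' : (0 : ℝ) < P := by exact_mod_cast hP
  rw [Set.ncard_eq_toFinset_card _ hfin]
  refine Nat.cast_le.2 ?_
  apply Finset.card_le_card_of_injOn (fun n => P * n + j)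
  · intro n hn
    obtain ⟨hn1, hn2⟩ := Finset.mem_filter.1 (Finset.mem_coe.1 hn)
    obtain ⟨hn3, hn4⟩ := Finset.mem_Icc.1 hn1
    have h1 : 0 ≤ (X - j) / P := by
      by_contra hneg
      push Not at hneg
      rw [Nat.floor_of_nonpos hneg.le] at hn4
      omega
    have hn5 : (n : ℝ) ≤ (X - j) / P := (Nat.cast_le.2 hn4).trans (Nat.floor_le h1)
    rw [le_div_iff₀ hP'] at hn5
    simp only [Set.Finite.coe_toFinset, Set.mem_ofPred_eq]
    refine ⟨?_, ?_, ?_⟩
    · push_cast
      nlinarith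
    · intro p hp hpk
      have h1 : P * n ≡ 0 [MOD p] := (Nat.modEq_zero_iff_dvd).2 (Dvd.dvd.mul_right (hdvd p hp hpk) n)
      simpa using h1.add_right j
    · have hinj' : Function.Injective (fun i : Fin K => P * n + e i) := by
        intro i i' h
        exact hinj (by simpa using h)
      have h2 := card_le_primeCounting (x := P * n + j) (k := k)
        ((univ.filter fun i => (P * n + e i).Prime).image (fun i : Fin K => P * n + e i)) (by
          intro q hq
          obtain ⟨i, hi, rfl⟩ := Finset.mem_image.1 hq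
          obtain ⟨h3, h4⟩ := hes i
          exact ⟨(Finset.mem_filter.1 hi).2, by omega, by omega⟩)
      rw [Finset.card_image_of_injective _ hinj'] at h2
      exact (Nat.add_le_add_left hn2 _).trans h2
  · intro n _ n' _ h
    have h1 : P * n = P * n' := Nat.add_right_cancel h
    exact Nat.eq_of_mul_eq_mul_left hP h1

end Pool.Agent.H529.R.Win
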